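import Mathlib

/-!
# Almost complete joins of odd-cycle-like graphs

`V` is partitioned into `t` groups by `g : V → Fin t`. Inside a group the graph contains a graph
`C` in which independent sets have size less than half of the group (an odd cycle). Two vertices
of different groups are adjacent unless they are related by a sparse relation `R`.

* If no transversal is a clique for `R`, the graph is not `(2t+1)`-colourable.
* If some transversal through `u` and `v` is an `R`-clique up to the pair `u v`, the graph becomes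
  `(2t+1)`-colourable after deleting the edge `u v`.
-/

set_option autoImplicit false

namespace Pool.Agent.KCrit14

open Finset SimpleGraph

variable {V : Type*} [Fintype V] [DecidableEq V] {t : ℕ}

theorem not_colorable_of_groups (ht : 2 ≤ t) (g : V → Fin t) (C H : SimpleGraph V)
    (R : V → V → Prop) (Δ : ℕ)
    (hR : ∀ x y, g x ≠ g y → ¬ R x y → H.Adj x y)
    (hC : ∀ x y, g x = g y → C.Adj x y → H.Adj x y)
    (A1 : ∀ l, ∀ S : Finset V, (∀ x ∈ S, g x = l) → (∀ x ∈ S, ∀ y ∈ S, ¬ C.Adj x y) →
      2 * S.card + 1 ≤ (univ.filter (fun x => g x = l)).card)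
    (A2 : ∀ x, ∀ l, l ≠ g x → ∀ S : Finset V, (∀ y ∈ S, g y = l ∧ R x y) → S.card ≤ Δ)
    (A3 : ∀ l, 4 * t * Δ ≤ (univ.filter (fun x => g x = l)).card)
    (A4 : ∀ z : Fin t → V, (∀ l, g (z l) = l) → ∃ l l', l ≠ l' ∧ ¬ R (z l) (z l')) :
    ¬ H.Colorable (2 * t + 1) := by
  classical
  rintro ⟨c⟩
  -- colour classes inside the groups
  let cl : Fin t → Fin (2 * t + 1) → Finset V := fun l γ => univ.filter (fun x => g x = l ∧ c x = γ)
  have mem_cl : ∀ l γ x, x ∈ cl l γ ↔ g x = l ∧ c x = γ := fun l γ x => by
    simp only [cl, mem_filter, mem_univ, true_and]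
  let S : Fin t → Finset (Fin (2 * t + 1)) := fun l => univ.filter (fun γ => Δ < (cl l γ).card)
  have mem_S : ∀ l γ, γ ∈ S l ↔ Δ < (cl l γ).card := fun l γ => by
    simp only [S, mem_filter, mem_univ, true_and]
  -- colour classes are independent
  have hind : ∀ l γ, 2 * (cl l γ).card + 1 ≤ (univ.filter (fun x => g x = l)).card := by
    intro l γ
    refine A1 l _ (fun x hx => ((mem_cl l γ x).1 hx).1) ?_
    intro x hx y hy hxy
    rw [mem_cl] at hx hy
    exact c.valid (hC x y (hx.1.trans hy.1.symm) hxy) (hx.2.trans hy.2.symm)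
  -- big colours are exclusive
  have hexcl : ∀ l γ, γ ∈ S l → ∀ x, g x ≠ l → c x ≠ γ := by
    intro l γ hγ x hx hcx
    rw [mem_S] at hγ
    have := A2 x l (Ne.symm hx) (cl l γ) (by
      intro y hy
      rw [mem_cl] at hy
      refine ⟨hy.1, ?_⟩
      by_contra hn
      exact c.valid (hR x y (by rw [hy.1]; exact hx) hn) (hcx.trans hy.2.symm))
    omega
  -- the group is the union of the classes
  have hsum : ∀ l, (univ.filter (fun x => g x = l)).card = ∑ γ, (cl l γ).card := by
    intro l
    rw [Finset.card_eq_sum_card_fiberwise (f := c) (t := univ) (fun x _ => Finset.mem_coe.2 (mem_univ _))]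
    refine Finset.sum_congr rfl (fun γ _ => ?_)
    congr 1
    ext x
    simp only [cl, mem_filter, mem_univ, true_and]
  -- at least two big colours
  have htwo : ∀ l, 2 ≤ (S l).card := by
    intro l
    by_contra hlt
    push Not at hlt
    have : Nonempty (Fin (2 * t + 1)) := ⟨0⟩
    obtain ⟨γ₀, hγ₀⟩ := Finset.card_le_one_iff_subset_singleton.1 (Nat.lt_succ_iff.1 hlt)
    have h1 := hsum l
    rw [← Finset.add_sum_erase univ _ (mem_univ γ₀)] at h1
    have h2 : ∑ γ ∈ univ.erase γ₀, (cl l γ).card ≤ ∑ γ ∈ (univ : Finset (Fin (2 * t + 1))).erase γ₀, Δ := by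
      refine Finset.sum_le_sum (fun γ hγ => ?_)
      by_contra hb
      push Not at hb
      have := hγ₀ ((mem_S l γ).2 hb)
      exact (Finset.mem_erase.1 hγ).1 (Finset.mem_singleton.1 this)
    rw [Finset.sum_const, Finset.card_erase_of_mem (mem_univ _), Finset.card_univ, Fintype.card_fin,
      smul_eq_mul] at h2
    have h3 := hind l γ₀
    have h4 := A3 l
    have h5 : (2 * t + 1 - 1) * Δ = 2 * t * Δ := by
      congr 1
    rw [h5] at h2
    have h6 : 4 * t * Δ = 2 * (2 * t * Δ) := by ring
    omega
  -- disjointness of the sets of big colours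
  have hdisj : ∀ l l', l ≠ l' → Disjoint (S l) (S l') := by
    intro l l' hll
    rw [Finset.disjoint_left]
    intro γ hγ hγ'
    have hpos : 0 < (cl l' γ).card := lt_of_le_of_lt (Nat.zero_le _) ((mem_S l' γ).1 hγ')
    obtain ⟨x, hx⟩ := Finset.card_pos.1 hpos
    rw [mem_cl] at hx
    exact hexcl l γ hγ x (by rw [hx.1]; exact hll.symm) hx.2
  have hcard : (univ.biUnion S).card = ∑ l, (S l).card :=
    Finset.card_biUnion (fun l _ l' _ h => hdisj l l' h)
  have hcard' : (univ.biUnion S).card ≤ 2 * t + 1 := by
    have := Finset.card_le_univ (univ.biUnion S)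
    rwa [Fintype.card_fin] at this
  -- a group with exactly two big colours uses another colour
  have hthird : ∀ l, (S l).card = 2 → ∃ x, g x = l ∧ c x ∉ univ.biUnion S := by
    intro l hl
    have h0 : ∃ x, g x = l ∧ c x ∉ S l := by
      by_contra hno
      push Not at hno
      obtain ⟨γ₁, γ₂, hne, hS⟩ := Finset.card_eq_two.1 hl
      have h1 : (univ.filter (fun x => g x = l)) ⊆ cl l γ₁ ∪ cl l γ₂ := by
        intro x hx
        rw [mem_filter] at hx
        have := hno x hx.2
        rw [hS, mem_insert, mem_singleton] at this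
        rw [mem_union, mem_cl, mem_cl]
        rcases this with h | h
        · exact Or.inl ⟨hx.2, h⟩
        · exact Or.inr ⟨hx.2, h⟩
      have h2 := Finset.card_le_card h1
      have h3 := Finset.card_union_le (cl l γ₁) (cl l γ₂)
      have h4 := hind l γ₁
      have h5 := hind l γ₂
      omega
    obtain ⟨x, hx, hcx⟩ := h0
    refine ⟨x, hx, ?_⟩
    rw [mem_biUnion]
    rintro ⟨l', -, hl'⟩
    by_cases hll : l' = l
    · rw [hll] at hl'
      exact hcx hl'
    · exact hexcl l' (c x) hl' x (by rw [hx]; exact fun h => hll h.symm) rfl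
  -- some group has exactly two big colours
  have hsome : ∃ l, (S l).card = 2 := by
    by_contra hno
    push Not at hno
    have h3 : ∀ l ∈ (univ : Finset (Fin t)), 3 ≤ (S l).card := fun l _ => by
      have := htwo l
      have := hno l
      omega
    have := Finset.card_nsmul_le_sum univ (fun l => (S l).card) 3 h3
    rw [Finset.card_univ, Fintype.card_fin, smul_eq_mul] at this
    omega
  obtain ⟨l₀, hl₀⟩ := hsome
  obtain ⟨x₀, hx₀, hcx₀⟩ := hthird l₀ hl₀
  have hlt : (univ.biUnion S).card < 2 * t + 1 := by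
    have : univ.biUnion S ⊂ univ := by
      rw [Finset.ssubset_univ_iff]
      intro h
      rw [h] at hcx₀
      exact hcx₀ (mem_univ _)
    have := Finset.card_lt_card this
    rwa [Finset.card_univ, Fintype.card_fin] at this
  -- hence all groups have exactly two
  have hall : ∀ l, (S l).card = 2 := by
    intro l
    by_contra hne
    have h3 : 3 ≤ (S l).card := by
      have := htwo l
      omega
    have h4 : ∑ l' ∈ univ.erase l, 2 ≤ ∑ l' ∈ univ.erase l, (S l').card :=
      Finset.sum_le_sum (fun l' _ => htwo l')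
    rw [Finset.sum_const, Finset.card_erase_of_mem (mem_univ _), Finset.card_univ, Fintype.card_fin,
      smul_eq_mul] at h4
    have h5 := Finset.add_sum_erase univ (fun l => (S l).card) (mem_univ l)
    omega
  have hB : (univ.biUnion S).card = 2 * t := by
    rw [hcard, Finset.sum_congr rfl (fun l _ => hall l), Finset.sum_const, Finset.card_univ,
      Fintype.card_fin, smul_eq_mul]
    ring
  have hcompl : (univ \ univ.biUnion S).card = 1 := by
    rw [Finset.card_sdiff_of_subset (Finset.subset_univ _), Finset.card_univ, Fintype.card_fin, hB]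
    omega
  obtain ⟨γ, hγ⟩ := Finset.card_eq_one.1 hcompl
  have hz : ∀ l, ∃ x, g x = l ∧ c x = γ := by
    intro l
    obtain ⟨x, hx, hcx⟩ := hthird l (hall l)
    refine ⟨x, hx, ?_⟩
    have : c x ∈ (univ \ univ.biUnion S) := Finset.mem_sdiff.2 ⟨mem_univ _, hcx⟩
    rw [hγ, Finset.mem_singleton] at this
    exact this
  choose z hz1 hz2 using hz
  obtain ⟨l, l', hll, hnR⟩ := A4 z hz1
  exact c.valid (hR (z l) (z l') (by rw [hz1, hz1]; exact hll) hnR) ((hz2 l).trans (hz2 l').symm)

omit [Fintype V] in
theorem colorable_delete_of_groups (g : V → Fin t) (C H : SimpleGraph V) (R : V → V → Prop)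
    (hR : ∀ x y, g x ≠ g y → H.Adj x y → ¬ R x y)
    (hC : ∀ x y, g x = g y → H.Adj x y → C.Adj x y)
    (A5 : ∀ x, ∃ f : V → Bool, ∀ y w, g y = g x → g w = g x → C.Adj y w → y ≠ x → w ≠ x →
      f y ≠ f w)
    (u v : V) (z : Fin t → V) (hz : ∀ l, g (z l) = l) (hzu : z (g u) = u) (hzv : z (g v) = v)
    (hzR : ∀ l l', l ≠ l' → ¬ (l = g u ∧ l' = g v) → ¬ (l = g v ∧ l' = g u) → R (z l) (z l')) :
    (H.deleteEdges {s(u, v)}).Colorable (2 * t + 1) := by
  classical
  have hA : ∀ l, ∃ f : V → Bool, ∀ y w, g y = l → g w = l → C.Adj y w → y ≠ z l → w ≠ z l →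
      f y ≠ f w := by
    intro l
    obtain ⟨f, hf⟩ := A5 (z l)
    refine ⟨f, fun y w hy hw => hf y w (by rw [hy, hz]) (by rw [hw, hz])⟩
  choose f hf using hA
  have hcol : (H.deleteEdges {s(u, v)}).Colorable (Fintype.card (Option (Fin t × Bool))) := by
    apply Coloring.colorable
    refine Coloring.mk (fun x => if x = z (g x) then none else some (g x, f (g x) x)) ?_
    intro x y hxy
    rw [deleteEdges_adj] at hxy
    obtain ⟨hadj, hne⟩ := hxy
    by_cases hx : x = z (g x)
    · by_cases hy : y = z (g y)
      · exfalso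
        have hg : g x ≠ g y := by
          intro h
          apply hadj.ne
          rw [hx, hy, h]
        have hnR := hR x y hg hadj
        apply hnR
        rw [hx, hy]
        apply hzR (g x) (g y) hg
        · rintro ⟨h1, h2⟩
          apply hne
          rw [Set.mem_singleton_iff, Sym2.eq_iff]
          left
          exact ⟨by rw [hx, h1, hzu], by rw [hy, h2, hzv]⟩
        · rintro ⟨h1, h2⟩
          apply hne
          rw [Set.mem_singleton_iff, Sym2.eq_iff]
          right
          exact ⟨by rw [hx, h1, hzv], by rw [hy, h2, hzu]⟩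
      · simp only [if_pos hx, if_neg hy]
        exact fun h => by simp at h
    · by_cases hy : y = z (g y)
      · simp only [if_neg hx, if_pos hy]
        exact fun h => by simp at h
      · simp only [if_neg hx, if_neg hy]
        intro h
        rw [Option.some.injEq, Prod.mk.injEq] at h
        obtain ⟨h1, h2⟩ := h
        have hCadj := hC x y h1 hadj
        refine hf (g x) x y rfl h1.symm hCadj hx (by rw [h1]; exact hy) ?_
        rw [h2, h1]
  have hc : Fintype.card (Option (Fin t × Bool)) = 2 * t + 1 := by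
    simp [Fintype.card_option]
    ring
  rwa [hc] at hcol

omit [Fintype V] in
/-- The same for the deletion of an edge `x y` inside the group of `v`. -/
theorem colorable_delete_inner (g : V → Fin t) (C H : SimpleGraph V) (R : V → V → Prop)
    (hR : ∀ x y, g x ≠ g y → H.Adj x y → ¬ R x y)
    (hC : ∀ x y, g x = g y → H.Adj x y → C.Adj x y)
    (A5 : ∀ x, ∃ f : V → Bool, ∀ y w, g y = g x → g w = g x → C.Adj y w → y ≠ x → w ≠ x →
      f y ≠ f w)
    (l₀ l₁ : Fin t) (z : Fin t → V) (hz : ∀ l, g (z l) = l)
    (hzR : ∀ l l', l ≠ l' → ¬ (l = l₁ ∧ l' = l₀) → ¬ (l = l₀ ∧ l' = l₁) → R (z l) (z l'))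
    (x y : V) (f₀ : V → Bool)
    (hf₀ : ∀ a b, g a = l₀ → g b = l₀ → C.Adj a b → s(a, b) ≠ s(x, y) → f₀ a ≠ f₀ b) :
    (H.deleteEdges {s(x, y)}).Colorable (2 * t + 1) := by
  classical
  have hA : ∀ l, ∃ f : V → Bool, ∀ y w, g y = l → g w = l → C.Adj y w → y ≠ z l → w ≠ z l →
      f y ≠ f w := by
    intro l
    obtain ⟨f, hf⟩ := A5 (z l)
    refine ⟨f, fun y w hy hw => hf y w (by rw [hy, hz]) (by rw [hw, hz])⟩
  choose f hf using hA
  have hcol : (H.deleteEdges {s(x, y)}).Colorable (Fintype.card (Option (Fin t × Bool))) := by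
    apply Coloring.colorable
    refine Coloring.mk (fun a => if g a = l₀ then some (l₀, f₀ a) else
      if a = z (g a) then none else some (g a, f (g a) a)) ?_
    intro a b hab
    rw [deleteEdges_adj] at hab
    obtain ⟨hadj, hne⟩ := hab
    rw [Set.mem_singleton_iff] at hne
    by_cases ha₀ : g a = l₀
    · by_cases hb₀ : g b = l₀
      · simp only [if_pos ha₀, if_pos hb₀]
        intro h
        rw [Option.some.injEq, Prod.mk.injEq] at h
        exact hf₀ a b ha₀ hb₀ (hC a b (ha₀.trans hb₀.symm) hadj) hne h.2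
      · simp only [if_pos ha₀, if_neg hb₀]
        by_cases hb : b = z (g b)
        · rw [if_pos hb]
          exact fun h => by simp at h
        · rw [if_neg hb]
          intro h
          rw [Option.some.injEq, Prod.mk.injEq] at h
          exact hb₀ h.1.symm
    · by_cases hb₀ : g b = l₀
      · simp only [if_neg ha₀, if_pos hb₀]
        by_cases ha : a = z (g a)
        · rw [if_pos ha]
          exact fun h => by simp at h
        · rw [if_neg ha]
          intro h
          rw [Option.some.injEq, Prod.mk.injEq] at h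
          exact ha₀ h.1
      · simp only [if_neg ha₀, if_neg hb₀]
        by_cases ha : a = z (g a)
        · by_cases hb : b = z (g b)
          · exfalso
            have hg : g a ≠ g b := by
              intro h
              apply hadj.ne
              rw [ha, hb, h]
            apply hR a b hg hadj
            rw [ha, hb]
            exact hzR (g a) (g b) hg (fun h => hb₀ h.2) (fun h => ha₀ h.1)
          · rw [if_pos ha, if_neg hb]
            exact fun h => by simp at h
        · by_cases hb : b = z (g b)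
          · rw [if_neg ha, if_pos hb]
            exact fun h => by simp at h
          · rw [if_neg ha, if_neg hb]
            intro h
            rw [Option.some.injEq, Prod.mk.injEq] at h
            obtain ⟨h1, h2⟩ := h
            refine hf (g a) a b rfl h1.symm (hC a b h1 hadj) ha (by rw [h1]; exact hb) ?_
            rw [h2, h1]
  have hc : Fintype.card (Option (Fin t × Bool)) = 2 * t + 1 := by
    simp [Fintype.card_option]
    ring
  rwa [hc] at hcol

/-- A cycle of odd length on a finite type. -/
theorem exists_cycle (W : Type*) [Fintype W] [DecidableEq W] (hodd : Odd (Fintype.card W))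
    (h3 : 3 ≤ Fintype.card W) :
    ∃ C : SimpleGraph W,
      (∀ S : Finset W, (∀ x ∈ S, ∀ y ∈ S, ¬ C.Adj x y) → 2 * S.card + 1 ≤ Fintype.card W) ∧
      (∀ x, ∃ f : W → Bool, ∀ y w, C.Adj y w → y ≠ x → w ≠ x → f y ≠ f w) ∧
      (∀ x, ∃ y, C.Adj x y ∧ ∃ f : W → Bool, ∀ a b, C.Adj a b → s(a, b) ≠ s(x, y) → f a ≠ f b) := by
  classical
  obtain ⟨q, hq⟩ : ∃ q, Fintype.card W = q := ⟨_, rfl⟩
  rw [hq] at hodd h3
  have hq0 : 0 < q := by omega
  let e : W ≃ Fin q := Fintype.equivFinOfCardEq hq
  -- position of `y` counted from `x`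
  let d : W → W → ℕ := fun x y => ((e y).1 + q - (e x).1) % q
  -- the successor
  let s : W → W := fun x => e.symm ⟨((e x).1 + 1) % q, Nat.mod_lt _ hq0⟩
  have hs : ∀ x, (e (s x)).1 = ((e x).1 + 1) % q := fun x => by
    simp only [s, Equiv.apply_symm_apply]
  have hsinj : Function.Injective s := by
    intro x y hxy
    have h1 : ((e x).1 + 1) % q = ((e y).1 + 1) % q := by
      rw [← hs, ← hs, hxy]
    have h2 : ((e x).1) % q = ((e y).1) % q := Nat.ModEq.add_right_cancel' 1 h1
    rw [Nat.mod_eq_of_lt (e x).2, Nat.mod_eq_of_lt (e y).2] at h2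
    exact e.injective (Fin.ext h2)
  have hsne : ∀ x, s x ≠ x := by
    intro x hx
    have h1 := hs x
    rw [hx] at h1
    have h2 := (e x).2
    by_cases h : (e x).1 + 1 < q
    · rw [Nat.mod_eq_of_lt h] at h1
      omega
    · have : (e x).1 + 1 = q := by omega
      rw [this, Nat.mod_self] at h1
      omega
  have hd0 : ∀ x y, d x y = 0 → y = x := by
    intro x y h
    have h1 := (e x).2
    have h2 := (e y).2
    apply e.injective
    apply Fin.ext
    simp only [d] at h
    by_cases hle : (e x).1 ≤ (e y).1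
    · have h3 : (e y).1 + q - (e x).1 = ((e y).1 - (e x).1) + q := by omega
      rw [h3, Nat.add_mod_right, Nat.mod_eq_of_lt (by omega)] at h
      omega
    · rw [Nat.mod_eq_of_lt (by omega)] at h
      omega
  have hds : ∀ x y, s y ≠ x → d x (s y) = d x y + 1 := by
    intro x y hne
    have h1 := (e x).2
    have h2 := (e y).2
    have hne' : (e (s y)).1 ≠ (e x).1 := fun h => hne (e.injective (Fin.ext h))
    rw [hs] at hne'
    simp only [d]
    rw [hs]
    by_cases hw : (e y).1 + 1 < q
    · rw [Nat.mod_eq_of_lt hw] at hne' ⊢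
      by_cases hle : (e x).1 ≤ (e y).1
      · have h3 : (e y).1 + q - (e x).1 = ((e y).1 - (e x).1) + q := by omega
        have h4 : (e y).1 + 1 + q - (e x).1 = ((e y).1 + 1 - (e x).1) + q := by omega
        rw [h3, h4, Nat.add_mod_right, Nat.add_mod_right, Nat.mod_eq_of_lt (by omega),
          Nat.mod_eq_of_lt (by omega)]
        omega
      · rw [Nat.mod_eq_of_lt (by omega), Nat.mod_eq_of_lt (by omega)]
        omega
    · have h5 : (e y).1 + 1 = q := by omega
      rw [h5, Nat.mod_self] at hne' ⊢
      have h3 : (e y).1 + q - (e x).1 = ((e y).1 - (e x).1) + q := by omega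
      rw [h3, Nat.add_mod_right, Nat.mod_eq_of_lt (by omega), Nat.mod_eq_of_lt (by omega)]
      omega
  let C : SimpleGraph W :=
    { Adj := fun x y => s x = y ∨ s y = x
      symm := ⟨fun x y h => h.symm⟩
      loopless := ⟨fun x h => h.elim (hsne x) (hsne x)⟩ }
  have hpar : ∀ a b : ℕ, b = a + 1 → (decide (a % 2 = 0)) ≠ (decide (b % 2 = 0)) := by
    rintro a b rfl
    rcases Nat.mod_two_eq_zero_or_one a with h | h
    · have h' : (a + 1) % 2 = 1 := by omega
      simp [h, h']
    · have h' : (a + 1) % 2 = 0 := by omega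
      simp [h, h']
  refine ⟨C, ?_, ?_, ?_⟩
  · intro S hS
    rw [hq]
    have hdis : Disjoint S (S.map ⟨s, hsinj⟩) := by
      rw [Finset.disjoint_left]
      intro y hy hy'
      rw [Finset.mem_map] at hy'
      obtain ⟨x, hx, hxy⟩ := hy'
      exact hS x hx y hy (Or.inl hxy)
    have hc := Finset.card_le_univ (S ∪ S.map ⟨s, hsinj⟩)
    rw [Finset.card_union_of_disjoint hdis, Finset.card_map, hq] at hc
    obtain ⟨m, hm⟩ := hodd
    omega
  · intro x
    refine ⟨fun y => decide (d x y % 2 = 0), ?_⟩
    intro y w hyw hy hw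
    rcases hyw with h | h
    · subst h
      exact hpar _ _ (hds x y hw)
    · subst h
      exact (hpar _ _ (hds x w hy)).symm
  · intro x
    refine ⟨s x, Or.inl rfl, fun y => decide (d (s x) y % 2 = 0), ?_⟩
    intro a b hab hne
    rcases hab with h | h
    · subst h
      have hax : s a ≠ s x := fun h => hne (by rw [hsinj h])
      exact hpar _ _ (hds (s x) a hax)
    · subst h
      have hbx : s b ≠ s x := fun h => hne (by rw [hsinj h, Sym2.eq_swap])
      exact (hpar _ _ (hds (s x) b hbx)).symm

end Pool.Agent.KCrit14
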