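import Mathlib
import Pool.Prelude.Def_F_851b09c8

/-!
# Critical subgraphs of graphs with many critical edges

A graph on `n` vertices which is not `m`-colourable, in which every vertex lies on an edge whose
deletion leaves an `m`-colourable graph, contains an `(m+1)`-critical spanning subgraph containing
all of these edges.
-/

set_option autoImplicit false

namespace Pool.Agent.KCrit14

open SimpleGraph Nf4105210

variable {V : Type*}

/-- One more colour suffices after putting back one edge. -/
theorem colorable_succ_of_deleteEdge (G : SimpleGraph V) (m : ℕ) (a b : V)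
    (h : (G.deleteEdges {s(a, b)}).Colorable m) : G.Colorable (m + 1) := by
  classical
  obtain ⟨c⟩ := h
  refine ⟨Coloring.mk (fun x => if x = a then Fin.last m else (c x).castSucc) ?_⟩
  intro x y hxy
  by_cases hx : x = a
  · have hy : y ≠ a := by
      rintro rfl
      exact hxy.ne hx
    simp only [hx, if_true, if_neg hy]
    exact (Fin.castSucc_lt_last _).ne'
  · by_cases hy : y = a
    · simp only [hy, if_true, if_neg hx]
      exact (Fin.castSucc_lt_last _).ne
    · simp only [if_neg hx, if_neg hy]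
      intro hc
      have hc' : c x = c y := Fin.castSucc_injective m hc
      refine c.valid ?_ hc'
      rw [deleteEdges_adj]
      refine ⟨hxy, ?_⟩
      simp only [Set.mem_singleton_iff, Sym2.eq_iff]
      rintro (⟨h1, -⟩ | ⟨-, h1⟩)
      · exact hx h1
      · exact hy h1

/-- Sufficient conditions for criticality. -/
theorem isKCritical_of (G : SimpleGraph V) (m : ℕ)
    (h1 : ¬ G.Colorable m)
    (h2 : ∀ e ∈ G.edgeSet, (G.deleteEdges {e}).Colorable m)
    (h3 : ∀ v, ∃ w, G.Adj v w) : IsKCritical G (m + 1) := by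
  have hlow : (m : ℕ∞) < G.chromaticNumber := by
    rw [← not_le]
    intro h
    exact h1 (chromaticNumber_le_iff_colorable.1 h)
  have hne : Nonempty V := by
    by_contra hV
    rw [not_nonempty_iff] at hV
    exact h1 (Colorable.of_isEmpty m)
  have hup : G.Colorable (m + 1) := by
    obtain ⟨v⟩ := hne
    obtain ⟨w, hvw⟩ := h3 v
    exact colorable_succ_of_deleteEdge G m v w (h2 _ hvw)
  have hchi : G.chromaticNumber = (m + 1 : ℕ) := by
    apply le_antisymm
    · exact hup.chromaticNumber_le
    · exact_mod_cast Order.add_one_le_of_lt hlow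
  refine ⟨⟨hchi, ?_⟩, ?_⟩
  · intro v
    obtain ⟨w, hvw⟩ := h3 v
    obtain ⟨c⟩ := h2 _ ((mem_edgeSet G).2 hvw)
    unfold Subgraph.IsCriticalVertex Subgraph.IsCriticalVerts
    have htop : ((⊤ : G.Subgraph).coe).chromaticNumber = G.chromaticNumber := by
      apply le_antisymm
      · exact chromaticNumber_mono_of_hom (Subgraph.topIso (G := G)).toHom
      · exact chromaticNumber_mono_of_hom (Subgraph.topIso (G := G)).symm.toHom
    rw [htop]
    refine lt_of_le_of_lt ?_ hlow
    apply Colorable.chromaticNumber_le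
    refine ⟨Coloring.mk (fun x => c x.1) ?_⟩
    rintro ⟨x, hx⟩ ⟨y, hy⟩ hxy
    refine c.valid ?_
    rw [deleteEdges_adj]
    simp only [Subgraph.coe_adj, Subgraph.deleteVerts_adj] at hxy
    refine ⟨hxy.2.2.2.2, ?_⟩
    simp only [Set.mem_singleton_iff, Sym2.eq_iff]
    rintro (⟨h, -⟩ | ⟨-, h⟩)
    · exact hxy.2.1 (by simp [h])
    · exact hxy.2.2.2.1 (by simp [h])
  · intro e he
    unfold IsCriticalEdge IsCriticalEdges
    exact lt_of_le_of_lt (h2 e he).chromaticNumber_le hlow

/-- Passing to a minimal spanning subgraph which is not `m`-colourable. -/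
theorem exists_minimal [Finite V] (H : SimpleGraph V) (m : ℕ) (h1 : ¬ H.Colorable m) :
    ∃ G : SimpleGraph V, G ≤ H ∧ ¬ G.Colorable m ∧
      (∀ e ∈ G.edgeSet, (G.deleteEdges {e}).Colorable m) := by
  classical
  have hfin : Finite (SimpleGraph V) := by
    have hinj : Function.Injective (fun G : SimpleGraph V => G.Adj) := fun G G' h => by
      ext x y
      exact iff_of_eq (congrFun (congrFun h x) y)
    exact Finite.of_injective _ hinj
  obtain ⟨G, ⟨hG1, hG2⟩, hmin⟩ := (Set.toFinite {G : SimpleGraph V | G ≤ H ∧ ¬ G.Colorable m}).exists_minimal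
    ⟨H, le_rfl, h1⟩
  refine ⟨G, hG1, hG2, ?_⟩
  intro e he
  by_contra hcol
  have hle : G.deleteEdges {e} ≤ G := deleteEdges_le _
  have := hmin (y := G.deleteEdges {e}) ⟨hle.trans hG1, hcol⟩ hle
  have h' : e ∈ (G.deleteEdges {e}).edgeSet := edgeSet_mono this he
  rw [edgeSet_deleteEdges] at h'
  exact h'.2 rfl

/-- The edges whose deletion leaves an `m`-colourable graph lie in every subgraph which is not
`m`-colourable; hence the critical spanning subgraph has at least as many edges. -/
theorem exists_critical [Finite V] (H : SimpleGraph V) (m : ℕ) (h1 : ¬ H.Colorable m)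
    (h2 : ∀ v, ∃ w, H.Adj v w ∧ (H.deleteEdges {s(v, w)}).Colorable m) :
    ∃ G : SimpleGraph V, IsKCritical G (m + 1) ∧
      {e | e ∈ H.edgeSet ∧ (H.deleteEdges {e}).Colorable m} ⊆ G.edgeSet := by
  obtain ⟨G, hGH, hG1, hG2⟩ := exists_minimal H m h1
  have key : ∀ e, e ∈ H.edgeSet → (H.deleteEdges {e}).Colorable m → e ∈ G.edgeSet := by
    intro e _ hc
    by_contra hne
    apply hG1
    refine hc.mono_left ?_
    rw [← edgeSet_subset_edgeSet, edgeSet_deleteEdges]
    intro x hx
    exact ⟨edgeSet_mono hGH hx, fun h => hne ((Set.mem_singleton_iff.1 h) ▸ hx)⟩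
  refine ⟨G, isKCritical_of G m hG1 hG2 ?_, fun e he => key e he.1 he.2⟩
  intro v
  obtain ⟨w, hvw, hc⟩ := h2 v
  exact ⟨w, key _ hvw hc⟩

/-- The set in the definition of `f` is bounded. -/
theorem bddAbove_f (k n : ℕ) :
    BddAbove {m : ℕ | ∃ G : SimpleGraph (Fin n), IsKCritical G k ∧ G.edgeSet.ncard = m} := by
  refine ⟨Nat.card (Sym2 (Fin n)), ?_⟩
  rintro m ⟨G, -, rfl⟩
  rw [← Set.ncard_univ]
  exact Set.ncard_le_ncard (Set.subset_univ _)

/-- Lower bound for `f` from a graph with many critical edges on any type with `n` elements. -/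
theorem le_f [Fintype V] (H : SimpleGraph V) (m n : ℕ) (hn : Fintype.card V = n)
    (h1 : ¬ H.Colorable m)
    (h2 : ∀ v, ∃ w, H.Adj v w ∧ (H.deleteEdges {s(v, w)}).Colorable m) :
    {e | e ∈ H.edgeSet ∧ (H.deleteEdges {e}).Colorable m}.ncard ≤ f (m + 1) n := by
  classical
  let φ : V ≃ Fin n := Fintype.equivFinOfCardEq hn
  let H' : SimpleGraph (Fin n) := H.comap φ.symm
  have hadj : ∀ x y, H'.Adj x y ↔ H.Adj (φ.symm x) (φ.symm y) := fun x y => Iff.rfl
  have hto : ∀ m', H'.Colorable m' → H.Colorable m' := by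
    rintro m' ⟨c⟩
    refine ⟨Coloring.mk (fun x => c (φ x)) ?_⟩
    intro x y hxy
    refine c.valid ?_
    rw [hadj]
    simpa using hxy
  have hdel : ∀ x y, (H.deleteEdges {s(x, y)}).Colorable m →
      (H'.deleteEdges {s(φ x, φ y)}).Colorable m := by
    rintro x y ⟨c⟩
    refine ⟨Coloring.mk (fun x => c (φ.symm x)) ?_⟩
    intro a b hab
    refine c.valid ?_
    rw [deleteEdges_adj] at hab ⊢
    refine ⟨hab.1, ?_⟩
    intro h
    apply hab.2
    simp only [Set.mem_singleton_iff, Sym2.eq_iff] at h ⊢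
    rcases h with ⟨h, h'⟩ | ⟨h, h'⟩
    · left
      exact ⟨by rw [← h]; simp, by rw [← h']; simp⟩
    · right
      exact ⟨by rw [← h]; simp, by rw [← h']; simp⟩
  obtain ⟨G, hG1, hG2⟩ := exists_critical H' m (fun h => h1 (hto m h)) (by
    intro v
    obtain ⟨w, hvw, hc⟩ := h2 (φ.symm v)
    refine ⟨φ w, ?_, ?_⟩
    · rw [hadj]
      simpa using hvw
    · have := hdel _ _ hc
      simpa using this)
  have hle : {e | e ∈ H.edgeSet ∧ (H.deleteEdges {e}).Colorable m}.ncard ≤ G.edgeSet.ncard := by
    refine Set.ncard_le_ncard_of_injOn (Sym2.map φ) ?_ ?_ (Set.toFinite _)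
    · intro e he
      apply hG2
      induction e with
      | h x y =>
        obtain ⟨he1, he2⟩ := he
        refine ⟨?_, ?_⟩
        · rw [Sym2.map_mk, mem_edgeSet, hadj]
          simpa using he1
        · rw [Sym2.map_mk]
          exact hdel x y he2
    · exact (Sym2.map.injective φ.injective).injOn
  refine hle.trans ?_
  exact le_csSup (bddAbove_f (m + 1) n) ⟨G, hG1, rfl⟩

end Pool.Agent.KCrit14
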