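import Mathlib
import Pool.Agent.KCrit14.Crit
import Pool.Agent.KCrit14.Abstract

/-!
# The construction

`t` odd cycles; each cycle consists of ordinary vertices, divided into `r` classes of size `M`, and
of hubs. Any two vertices of different cycles are joined, except for a sparse set of pairs in
which every pair has a hub.
-/

set_option autoImplicit false

namespace Pool.Agent.KCrit14

open Finset SimpleGraph Nf4105210

/-- Index type of the hubs of one cycle: `(i, j, a, b)`. -/
abbrev Hub (t r : ℕ) : Type := Fin t × Fin t × Fin r × Fin r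

/-- Vertices of one cycle: ordinary vertices (with a class in `Fin r`) and hubs. -/
abbrev Wt (t r M : ℕ) : Type := (Fin r × Fin M) ⊕ Hub t r

/-- The vertices: cycle number and vertex of the cycle. -/
abbrev Vt (t r M : ℕ) : Type := Fin t × Wt t r M

/-- The hub `k = (i, j, a, b)` of cycle `l'` (`i, j, l'` different) is not joined to the ordinary
vertices of class `a` of cycle `i` and of class `b` of cycle `j`. -/
def hubRel {t r : ℕ} (k : Hub t r) (l' l : Fin t) (a : Fin r) : Prop :=
  k.1 ≠ k.2.1 ∧ l' ≠ k.1 ∧ l' ≠ k.2.1 ∧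
    ((l = k.1 ∧ a = k.2.2.1) ∨ (l = k.2.1 ∧ a = k.2.2.2))

/-- The sparse relation of the pairs which are not joined. -/
def nonRel {t r M : ℕ} : Vt t r M → Vt t r M → Prop
  | (_, Sum.inl _), (_, Sum.inl _) => False
  | (l, Sum.inl n), (l', Sum.inr k) => hubRel k l' l n.1
  | (l, Sum.inr k), (l', Sum.inl n) => hubRel k l l' n.1
  | (l, Sum.inr k), (l', Sum.inr k') =>
      k = k' ∧ k.1 ≠ k.2.1 ∧ l ≠ k.1 ∧ l ≠ k.2.1 ∧ l' ≠ k.1 ∧ l' ≠ k.2.1

variable {t r M : ℕ}

theorem nonRel_symm {x y : Vt t r M} (h : nonRel x y) : nonRel y x := by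
  obtain ⟨l, x⟩ := x
  obtain ⟨l', y⟩ := y
  rcases x with n | k <;> rcases y with n' | k'
  · exact h
  · exact h
  · exact h
  · obtain ⟨rfl, h1, h2, h3, h4, h5⟩ := h
    exact ⟨rfl, h1, h4, h5, h2, h3⟩

/-- The cycles. -/
def cycles (C : SimpleGraph (Wt t r M)) : SimpleGraph (Vt t r M) where
  Adj x y := x.1 = y.1 ∧ C.Adj x.2 y.2
  symm := ⟨fun _ _ h => ⟨h.1.symm, h.2.symm⟩⟩
  loopless := ⟨fun _ h => C.loopless.irrefl _ h.2⟩

/-- The graph. -/
def bigGraph (C : SimpleGraph (Wt t r M)) : SimpleGraph (Vt t r M) where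
  Adj x y := (x.1 = y.1 ∧ C.Adj x.2 y.2) ∨ (x.1 ≠ y.1 ∧ ¬ nonRel x y)
  symm := ⟨fun _ _ h => h.elim (fun h => Or.inl ⟨h.1.symm, h.2.symm⟩)
    (fun h => Or.inr ⟨h.1.symm, fun h' => h.2 (nonRel_symm h')⟩)⟩
  loopless := ⟨fun _ h => h.elim (fun h => C.loopless.irrefl _ h.2) (fun h => h.1 rfl)⟩

theorem card_Wt : Fintype.card (Wt t r M) = r * M + t * t * r * r := by
  simp only [Fintype.card_sum, Fintype.card_prod, Fintype.card_fin]
  ring

theorem card_group (l : Fin t) :
    (univ.filter (fun x : Vt t r M => x.1 = l)).card = r * M + t * t * r * r := by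
  rw [← card_Wt (t := t) (r := r) (M := M), ← Finset.card_univ,
    ← Finset.card_map (⟨fun w => (l, w), fun w w' h => (Prod.mk.inj h).2⟩ : Wt t r M ↪ Vt t r M)]
  congr 1
  ext ⟨l', w⟩
  simp only [mem_filter, mem_univ, true_and, mem_map]
  constructor
  · intro h
    exact ⟨w, Prod.ext h.symm rfl⟩
  · rintro ⟨w', h⟩
    exact (Prod.mk.inj h).1.symm

/-- The sparse relation is sparse. -/
theorem nonRel_card (x : Vt t r M) (l : Fin t) (hr : 0 < r) (S : Finset (Vt t r M))
    (hS : ∀ y ∈ S, y.1 = l ∧ nonRel x y) : S.card ≤ 2 * M + 2 * (t * r) := by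
  classical
  have ht : 0 < t := lt_of_le_of_lt (Nat.zero_le _) l.2
  have htr : 0 < t * r := Nat.mul_pos ht hr
  obtain ⟨l₀, x⟩ := x
  rcases x with n | k
  · have hsub : S ⊆ (univ : Finset (Bool × Fin t × Fin r)).image
        (fun p => ((l, Sum.inr (if p.1 then (l₀, p.2.1, n.1, p.2.2) else (p.2.1, l₀, p.2.2, n.1))) :
          Vt t r M)) := by
      rintro ⟨l', y⟩ hy
      obtain ⟨h1, h2⟩ := hS _ hy
      simp only at h1
      subst h1
      rcases y with n' | k
      · exact h2.elim
      · obtain ⟨i, j, a, b⟩ := k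
        obtain ⟨-, -, -, h3⟩ := h2
        rw [mem_image]
        rcases h3 with ⟨h3, h4⟩ | ⟨h3, h4⟩
        · simp only at h3 h4
          exact ⟨(true, j, b), mem_univ _, by simp [h3, h4]⟩
        · simp only at h3 h4
          exact ⟨(false, i, a), mem_univ _, by simp [h3, h4]⟩
    have h := (Finset.card_le_card hsub).trans Finset.card_image_le
    simp only [Finset.card_univ, Fintype.card_prod, Fintype.card_bool, Fintype.card_fin] at h
    omega
  · have hsub : S ⊆ (univ : Finset (Option (Bool × Fin M))).image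
        (fun p => ((l, match p with
          | none => Sum.inr k
          | some (true, m) => Sum.inl (k.2.2.1, m)
          | some (false, m) => Sum.inl (k.2.2.2, m)) : Vt t r M)) := by
      rintro ⟨l', y⟩ hy
      obtain ⟨h1, h2⟩ := hS _ hy
      simp only at h1
      subst h1
      rcases y with n' | k'
      · obtain ⟨-, -, -, h3⟩ := h2
        obtain ⟨a, m⟩ := n'
        rw [mem_image]
        rcases h3 with ⟨-, h4⟩ | ⟨-, h4⟩
        · simp only at h4
          exact ⟨some (true, m), mem_univ _, by simp [h4]⟩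
        · simp only at h4
          exact ⟨some (false, m), mem_univ _, by simp [h4]⟩
      · rw [mem_image]
        exact ⟨none, mem_univ _, by simp [h2.1]⟩
    have h := (Finset.card_le_card hsub).trans Finset.card_image_le
    simp only [Finset.card_univ, Fintype.card_option, Fintype.card_prod, Fintype.card_bool,
      Fintype.card_fin] at h
    omega

/-- No transversal is a clique of the sparse relation. -/
theorem nonRel_free (ht : 2 ≤ t) (z : Fin t → Vt t r M) (hz : ∀ l, (z l).1 = l) :
    ∃ l l', l ≠ l' ∧ ¬ nonRel (z l) (z l') := by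
  by_contra hno
  push Not at hno
  -- a hub
  have hhub : ∃ l k, z l = (l, Sum.inr k) ∧ k.1 ≠ k.2.1 ∧ l ≠ k.1 ∧ l ≠ k.2.1 := by
    let l₀ : Fin t := ⟨0, by omega⟩
    let l₁ : Fin t := ⟨1, by omega⟩
    have hne : l₀ ≠ l₁ := by
      intro h
      have := congrArg Fin.val h
      simp [l₀, l₁] at this
    have h := hno l₀ l₁ hne
    obtain ⟨a, x, hx⟩ : ∃ a x, z l₀ = (a, x) := ⟨_, _, rfl⟩
    obtain ⟨b, y, hy⟩ : ∃ a x, z l₁ = (a, x) := ⟨_, _, rfl⟩
    have ha : a = l₀ := by
      have := hz l₀
      rw [hx] at this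
      exact this
    have hb : b = l₁ := by
      have := hz l₁
      rw [hy] at this
      exact this
    subst ha
    subst hb
    rw [hx, hy] at h
    rcases x with n | k
    · rcases y with n' | k'
      · exact h.elim
      · exact ⟨l₁, k', hy, h.1, h.2.1, h.2.2.1⟩
    · rcases y with n' | k'
      · exact ⟨l₀, k, hx, h.1, h.2.1, h.2.2.1⟩
      · exact ⟨l₀, k, hx, h.2.1, h.2.2.1, h.2.2.2.1⟩
  obtain ⟨l, k, hl, h1, h2, h3⟩ := hhub
  -- both cycles of the hub have ordinary vertices in the transversal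
  have hord : ∀ l', (l' = k.1 ∨ l' = k.2.1) → ∃ n, z l' = (l', Sum.inl n) := by
    intro l' hl'
    have hne : l ≠ l' := by
      rcases hl' with rfl | rfl
      · exact h2
      · exact h3
    have h := hno l l' hne
    obtain ⟨a, x, hx⟩ : ∃ a x, z l' = (a, x) := ⟨_, _, rfl⟩
    have ha : a = l' := by
      have := hz l'
      rw [hx] at this
      exact this
    subst ha
    rw [hl, hx] at h
    rcases x with n | k'
    · exact ⟨n, hx⟩
    · exfalso
      rcases hl' with h' | h'
      · exact h.2.2.2.2.1 h'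
      · exact h.2.2.2.2.2 h'
  obtain ⟨n, hn⟩ := hord k.1 (Or.inl rfl)
  obtain ⟨n', hn'⟩ := hord k.2.1 (Or.inr rfl)
  have h := hno k.1 k.2.1 h1
  rw [hn, hn'] at h
  exact h

/-- The transversal through two ordinary vertices of different cycles. -/
def trans (i j : Fin t) (n m : Fin r × Fin M) : Fin t → Vt t r M :=
  fun l => (l, if l = i then Sum.inl n else if l = j then Sum.inl m else
    Sum.inr (i, j, n.1, m.1))

theorem trans_rel (i j : Fin t) (hij : i ≠ j) (n m : Fin r × Fin M) (l l' : Fin t) (hll : l ≠ l')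
    (h1 : ¬ (l = i ∧ l' = j)) (h2 : ¬ (l = j ∧ l' = i)) :
    nonRel (trans i j n m l) (trans i j n m l') := by
  unfold trans
  by_cases hi : l = i
  · subst hi
    by_cases hj' : l' = j
    · exact (h1 ⟨rfl, hj'⟩).elim
    · rw [if_pos rfl, if_neg (Ne.symm hll), if_neg hj']
      exact ⟨hij, Ne.symm hll, hj', Or.inl ⟨rfl, rfl⟩⟩
  · by_cases hj : l = j
    · subst hj
      by_cases hi' : l' = i
      · exact (h2 ⟨rfl, hi'⟩).elim
      · rw [if_neg hi, if_pos rfl, if_neg hi', if_neg (Ne.symm hll)]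
        exact ⟨hij, hi', Ne.symm hll, Or.inr ⟨rfl, rfl⟩⟩
    · rw [if_neg hi, if_neg hj]
      by_cases hi' : l' = i
      · subst hi'
        rw [if_pos rfl]
        exact ⟨hij, hi, hj, Or.inl ⟨rfl, rfl⟩⟩
      · by_cases hj' : l' = j
        · subst hj'
          rw [if_neg hi', if_pos rfl]
          exact ⟨hij, hi, hj, Or.inr ⟨rfl, rfl⟩⟩
        · rw [if_neg hi', if_neg hj']
          exact ⟨rfl, hij, hi, hj, hi', hj'⟩

/-- **The lower bound.** -/
theorem bound (t M : ℕ) (ht : 2 ≤ t) (hM : 0 < M)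
    (hodd : Odd ((8 * t + 1) * M + t * t * (8 * t + 1) * (8 * t + 1))) :
    t.choose 2 * ((8 * t + 1) * M) ^ 2 ≤
      f (2 * t + 2) (t * ((8 * t + 1) * M + t * t * (8 * t + 1) * (8 * t + 1))) := by
  classical
  obtain ⟨r, hr⟩ : ∃ r, r = 8 * t + 1 := ⟨_, rfl⟩
  rw [← hr] at hodd ⊢
  have hr0 : 0 < r := by omega
  have hq3 : 3 ≤ Fintype.card (Wt t r M) := by
    rw [card_Wt]
    have h1 : 1 ≤ r * M := Nat.mul_pos hr0 hM
    have h2 : 2 * 2 * 1 * 1 ≤ t * t * r * r :=
      Nat.mul_le_mul (Nat.mul_le_mul (Nat.mul_le_mul ht ht) hr0) hr0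
    omega
  obtain ⟨C, hC1, hC2, hC3⟩ := exists_cycle (Wt t r M) (by rw [card_Wt]; exact hodd) hq3
  let H := bigGraph C
  have hcross : ∀ x y : Vt t r M, x.1 ≠ y.1 → (H.Adj x y ↔ ¬ nonRel x y) := by
    intro x y hxy
    constructor
    · rintro (h | h)
      · exact (hxy h.1).elim
      · exact h.2
    · intro h
      exact Or.inr ⟨hxy, h⟩
  have hinner : ∀ x y : Vt t r M, x.1 = y.1 → (H.Adj x y ↔ (cycles C).Adj x y) := by
    intro x y hxy
    constructor
    · rintro (h | h)
      · exact h
      · exact (h.1 hxy).elim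
    · intro h
      exact Or.inl h
  have hmain : ¬ H.Colorable (2 * t + 1) := by
    refine not_colorable_of_groups ht (fun x : Vt t r M => x.1) (cycles C) H nonRel
      (2 * M + 2 * (t * r)) (fun x y h h' => (hcross x y h).2 h')
      (fun x y h h' => (hinner x y h).2 h') ?_ ?_ ?_ (fun z hz => nonRel_free ht z hz)
    · intro l S hS hind
      rw [card_group, ← card_Wt (t := t) (r := r) (M := M)]
      have h1 : (S.image Prod.snd).card = S.card := by
        apply Finset.card_image_of_injOn
        intro x hx y hy hxy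
        exact Prod.ext ((hS x hx).trans (hS y hy).symm) hxy
      rw [← h1]
      apply hC1
      intro a ha b hb hab
      rw [mem_image] at ha hb
      obtain ⟨x, hx, rfl⟩ := ha
      obtain ⟨y, hy, rfl⟩ := hb
      exact hind x hx y hy ⟨(hS x hx).trans (hS y hy).symm, hab⟩
    · intro x l _ S hS
      exact nonRel_card x l hr0 S hS
    · intro l
      rw [card_group]
      have h1 : 4 * t * (2 * M + 2 * (t * r)) = 8 * t * M + t * t * r * 8 := by ring
      rw [h1]
      have h2 : 8 * t * M ≤ r * M := Nat.mul_le_mul_right _ (by omega)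
      have h3 : t * t * r * 8 ≤ t * t * r * r := Nat.mul_le_mul_left _ (by omega)
      omega
  have hA5 : ∀ x : Vt t r M, ∃ f : Vt t r M → Bool, ∀ y w, y.1 = x.1 → w.1 = x.1 →
      (cycles C).Adj y w → y ≠ x → w ≠ x → f y ≠ f w := by
    intro x
    obtain ⟨f, hf⟩ := hC2 x.2
    refine ⟨fun y => f y.2, ?_⟩
    intro y w hy hw hyw hyx hwx
    exact hf y.2 w.2 hyw.2 (fun h => hyx (Prod.ext hy h)) (fun h => hwx (Prod.ext hw h))
  -- the cross edges between ordinary vertices are critical
  have hcrit : ∀ (i j : Fin t) (n m : Fin r × Fin M), i ≠ j →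
      (H.deleteEdges {s(((i, Sum.inl n) : Vt t r M), ((j, Sum.inl m) : Vt t r M))}).Colorable
        (2 * t + 1) := by
    intro i j n m hij
    refine colorable_delete_of_groups (fun x : Vt t r M => x.1) (cycles C) H nonRel
      (fun x y h h' => (hcross x y h).1 h') (fun x y h h' => (hinner x y h).1 h') hA5
      (i, Sum.inl n) (j, Sum.inl m) (trans i j n m) (fun l => rfl) ?_ ?_ ?_
    · simp [trans]
    · simp [trans, Ne.symm hij]
    · intro l l' hll h1 h2
      exact trans_rel i j hij n m l l' hll h1 h2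
  -- every vertex lies on a critical edge of its cycle
  have hcyc : ∀ x : Vt t r M, ∃ y, H.Adj x y ∧ (H.deleteEdges {s(x, y)}).Colorable (2 * t + 1) := by
    intro x
    obtain ⟨y, hy, f, hf⟩ := hC3 x.2
    refine ⟨(x.1, y), Or.inl ⟨rfl, hy⟩, ?_⟩
    -- another cycle
    obtain ⟨l₁, hl₁⟩ : ∃ l₁ : Fin t, l₁ ≠ x.1 := by
      have : Nontrivial (Fin t) := Fin.nontrivial_iff_two_le.2 ht
      exact exists_ne x.1
    let n₀ : Fin r × Fin M := (⟨0, hr0⟩, ⟨0, hM⟩)
    refine colorable_delete_inner (fun x : Vt t r M => x.1) (cycles C) H nonRel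
      (fun x y h h' => (hcross x y h).1 h') (fun x y h h' => (hinner x y h).1 h') hA5
      x.1 l₁ (trans x.1 l₁ n₀ n₀) (fun l => rfl) ?_ x (x.1, y) (fun z => f z.2) ?_
    · intro l l' hll h1 h2
      exact trans_rel x.1 l₁ hl₁.symm n₀ n₀ l l' hll h2 h1
    · intro a b ha hb hab hne
      refine hf a.2 b.2 hab.2 ?_
      intro h
      apply hne
      rw [Sym2.eq_iff] at h ⊢
      rcases h with ⟨h1, h2⟩ | ⟨h1, h2⟩
      · left
        exact ⟨Prod.ext ha h1, Prod.ext hb h2⟩
      · right
        exact ⟨Prod.ext ha h1, Prod.ext hb h2⟩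
  have hcardV : Fintype.card (Vt t r M) = t * (r * M + t * t * r * r) := by
    rw [Fintype.card_prod, card_Wt, Fintype.card_fin]
  have hfin := le_f H (2 * t + 1) _ hcardV hmain hcyc
  refine le_trans ?_ hfin
  -- counting
  let P : Finset ((Fin t × Fin t) × (Fin r × Fin M) × (Fin r × Fin M)) :=
    (univ.filter (fun p : Fin t × Fin t => p.1 < p.2)) ×ˢ univ
  have hP : P.card = t.choose 2 * (r * M) ^ 2 := by
    have h1 : (univ.filter (fun p : Fin t × Fin t => p.1 < p.2)).card = t.choose 2 := by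
      have h2 : (univ.filter (fun p : Fin t × Fin t => p.1 < p.2)).card
          = ((univ : Finset (Fin t)).powersetCard 2).card := by
        refine Finset.card_bij (fun p _ => ({p.1, p.2} : Finset (Fin t))) ?_ ?_ ?_
        · intro p hp
          rw [mem_filter] at hp
          rw [Finset.mem_powersetCard]
          exact ⟨Finset.subset_univ _, Finset.card_pair hp.2.ne⟩
        · intro p hp p' hp' h
          rw [mem_filter] at hp hp'
          have h1 : p.1 ∈ ({p'.1, p'.2} : Finset (Fin t)) := by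
            rw [← h]; simp
          have h2 : p.2 ∈ ({p'.1, p'.2} : Finset (Fin t)) := by
            rw [← h]; simp
          rw [Finset.mem_insert, Finset.mem_singleton] at h1 h2
          have h3 := hp.2
          have h4 := hp'.2
          rcases h1 with h1 | h1 <;> rcases h2 with h2 | h2
          · exact absurd (h1.trans h2.symm) h3.ne
          · exact Prod.ext h1 h2
          · rw [h1, h2] at h3
            exact absurd h3 (not_lt.2 h4.le)
          · exact absurd (h1.trans h2.symm) h3.ne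
        · intro s hs
          rw [Finset.mem_powersetCard] at hs
          obtain ⟨a, b, hab, rfl⟩ := Finset.card_eq_two.1 hs.2
          rcases lt_or_gt_of_ne hab with h | h
          · exact ⟨(a, b), by simp [h], rfl⟩
          · exact ⟨(b, a), by simp [h], Finset.pair_comm b a⟩
      rw [h2, Finset.card_powersetCard, Finset.card_univ, Fintype.card_fin]
    rw [Finset.card_product, h1, Finset.card_univ]
    simp only [Fintype.card_prod, Fintype.card_fin]
    ring
  rw [← hP, ← Set.ncard_coe_finset]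
  refine Set.ncard_le_ncard_of_injOn
    (fun p => s(((p.1.1, Sum.inl p.2.1) : Vt t r M), ((p.1.2, Sum.inl p.2.2) : Vt t r M)))
    ?_ ?_ (Set.toFinite _)
  · intro p hp
    rw [Finset.mem_coe, Finset.mem_product, mem_filter] at hp
    have hne : p.1.1 ≠ p.1.2 := hp.1.2.ne
    refine ⟨?_, hcrit _ _ _ _ hne⟩
    rw [mem_edgeSet]
    exact Or.inr ⟨hne, fun h => h⟩
  · intro p hp p' hp' h
    rw [Finset.mem_coe, Finset.mem_product, mem_filter] at hp hp'
    simp only [Sym2.eq_iff, Prod.mk.injEq, Sum.inl.injEq] at h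
    rcases h with ⟨⟨h1, h2⟩, h3, h4⟩ | ⟨⟨h1, h2⟩, h3, h4⟩
    · exact Prod.ext (Prod.ext h1 h3) (Prod.ext h2 h4)
    · exfalso
      have h5 := hp.1.2
      have h6 := hp'.1.2
      rw [h1, h3] at h5
      exact absurd h5 (not_lt.2 h6.le)

end Pool.Agent.KCrit14
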