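import Mathlib
import Pool.Prelude.Def_F_851b09c8
import Pool.Agent.KCrit14.Construction

set_option autoImplicit false
open Nf4105210
open Filter Asymptotics


namespace Pool.Agent.KCrit14

/-- The lower bound for `k = 12`, from five odd cycles. -/
theorem bound_twelve (M : ℕ) (hM : 0 < M) (hev : Even M) :
    10 * (41 * M) ^ 2 ≤ f 12 (5 * (41 * M + 42025)) := by
  have h := bound 5 M (by norm_num) hM (by
    obtain ⟨m, rfl⟩ := hev
    exact ⟨41 * m + 21012, by ring⟩)
  have h1 : Nat.choose 5 2 = 10 := by decide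
  rw [h1] at h
  exact h

/-- Not handed in (outside the list of problems of the team): the asymptotic fails for k = 12. -/
theorem twelve :
    ¬ (∀ k : ℕ, 6 ≤ k → 3 ∣ k → (fun n : ℕ ↦ (f k n : ℝ)) ~[atTop] conjecturedValue k) := by
  intro hall
  have h12 := hall 12 (by norm_num) (by norm_num)
  have hlit := (isLittleO_iff.1 h12.isLittleO) (show (0 : ℝ) < 1 / 100 by norm_num)
  obtain ⟨N, hN⟩ := eventually_atTop.1 hlit
  obtain ⟨M, hMdef⟩ : ∃ M : ℕ, M = 2 * (N + 50000) := ⟨_, rfl⟩
  have hMpos : 0 < M := by rw [hMdef]; positivity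
  have hMev : Even M := by rw [hMdef]; exact even_two_mul _
  have hMN : N ≤ M := by rw [hMdef]; linarith
  have hM5 : 100000 ≤ M := by rw [hMdef]; linarith
  have hge : N ≤ 5 * (41 * M + 42025) := by linarith
  have hb := bound_twelve M hMpos hMev
  have hn := hN (5 * (41 * M + 42025)) hge
  have hconj : conjecturedValue 12 (5 * (41 * M + 42025)) =
      3 / 8 * ((5 * (41 * (M : ℝ) + 42025)) ^ 2) := by
    unfold conjecturedValue
    have h4 : ((12 / 3 : ℕ) : ℝ) = 4 := by norm_num
    rw [h4]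
    push_cast
    ring
  rw [Pi.sub_apply, hconj, Real.norm_eq_abs, Real.norm_eq_abs,
    abs_of_nonneg (show (0 : ℝ) ≤ 3 / 8 * ((5 * (41 * (M : ℝ) + 42025)) ^ 2) by positivity)] at hn
  have hle := (le_abs_self _).trans hn
  have hbR : (10 : ℝ) * (41 * (M : ℝ)) ^ 2 ≤ (f 12 (5 * (41 * M + 42025)) : ℝ) := by
    exact_mod_cast hb
  have hMR : (100000 : ℝ) ≤ (M : ℝ) := by
    exact_mod_cast hM5
  nlinarith [hle, hbR, hMR, mul_self_nonneg ((M : ℝ) - 100000)]

end Pool.Agent.KCrit14
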